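import Pool.Agent.H17.CI.TargetsB

/-!
Module DGT of ci_modules.
-/

set_option autoImplicit false

namespace Pool.Agent.H77.CI

open MvPolynomial SC Pool.Agent.H27.LV Pool.Agent.H17.VG Pool.Agent.H17.CI

/-- DGT -/
theorem pf_DGT (hRS : T_RS) : T_DGT := by
  intro K _ _ n ι e F Z x y w hF hx0 hZ hy0 hy hE hw0 hw hres
  obtain ⟨α, β, hαβ⟩ := Submodule.mem_span_pair.1 hw
  have hα : α = 0 := by
    have h1 := congrFun hαβ 0
    rw [Pi.add_apply, Pi.smul_apply, Pi.smul_apply, hx0, hy0, hw0, smul_zero, add_zero,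
      smul_eq_mul, mul_one] at h1
    exact h1
  by_cases hβ : β = 0
  · rw [← hαβ, hα, hβ, zero_smul, zero_smul, add_zero]
  exfalso
  apply hE
  have hwy : w = β • y + (0 : K) • y := by rw [← hαβ, hα, zero_smul, zero_smul]; abel
  have hconst : ∀ i, res x y (F i) = Polynomial.C (eval x (F i)) := by
    intro i
    have h1 := hRS K n 0 (F i) (F i) y y y x y β 0
    have h2 := hres i
    rw [hwy, h1.2.2.2.2.2.2.1, C_0, zero_mul, add_zero] at h2
    have h3 := hRS K n 0 (C β) (dir y (F i)) y y y x y β 0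
    rw [h3.2.1, h3.2.2.1, mul_eq_zero, Polynomial.C_eq_zero] at h2
    have h4 := h2.resolve_left hβ
    rw [← h1.2.2.2.2.2.2.2.2.1] at h4
    have h5 := Polynomial.eq_C_of_derivative_eq_zero h4
    rw [h5, h1.2.2.2.2.2.2.2.1]
  refine ⟨fun i hi => ?_, 0, fun i _ => ⟨0, ?_⟩⟩
  · rw [hconst, (hZ i).2 hi, Polynomial.C_0]
  · rw [hconst, pow_zero, mul_one]

end Pool.Agent.H77.CI
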