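import Pool.Agent.H17.CI.TargetsB
import Pool.Agent.H97.VG.KY

/-!
Modules SY and WDT of ci_modules.
-/

set_option autoImplicit false

namespace Pool.Agent.H77.CI

open MvPolynomial SC Pool.Agent.H27.LV Pool.Agent.H17.VG Pool.Agent.H17.CI Pool.Agent.H97.VG

/-- SY -/
theorem pf_SY : T_SY := by
  intro R K _ _ _ n ι e F τ τ' l l' G G' a b hF h1 h2
  refine ⟨⟨?_, ?_⟩, ?_⟩
  · intro j
    have h3 : (a • τ + b • τ').2 = a • τ.2 + b • τ'.2 := rfl
    rw [h3, Matrix.add_apply, Matrix.smul_apply, Matrix.smul_apply, h1.1 j, h2.1 j, smul_zero,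
      smul_zero, add_zero]
  · intro i
    rw [opF_lin]
    have h3 : (a • l + b • l') i = a * l i + b * l' i := rfl
    have h4 : (a • G + b • G') i = a • G i + b • G' i := rfl
    rw [h3, h4, ← h1.2 i, ← h2.2 i, smul_eq_C_mul, smul_eq_C_mul, C_add, C_mul, C_mul]
    ring
  · intro i
    rw [← h1.2 i]
    refine (opF_homog τ (F i) (e i + 1) (hF i)).add ?_
    have h3 := (isHomogeneous_C (Fin (n + 1)) (l i)).mul (hF i)
    rwa [zero_add] at h3

/-- WDT -/
theorem pf_WDT : Pool.Agent.H17.CI.T_WDT := by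
  intro R K _ _ _ n ι e F D hS τ τ' l l' G h1 h2
  have h0 := (pf_SY R K n ι e F τ τ' l l' G G 1 (-1) hS.homog h1 h2).1
  have hz : ((1 : K) • G + (-1 : K) • G) = 0 := by
    rw [one_smul, neg_one_smul, add_neg_cancel]
  rw [hz] at h0
  obtain ⟨h3, -, c, h4⟩ := hS.ker _ _ h0
  refine ⟨c, fun z => ?_⟩
  have h5 : opV ((1 : K) • τ + (-1 : K) • τ') z = c • fun i => D (z i) := by
    funext i
    unfold opV
    rw [h3, h4]
    rw [Finset.sum_eq_zero, sub_zero]
    · rfl
    · intro j _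
      rw [Matrix.zero_apply, zero_mul]
  rw [opV_lin, one_smul, neg_one_smul] at h5
  rw [← h5]
  abel

end Pool.Agent.H77.CI
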